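import Pool.Agent.H62.SCD.Util

/-!
D1: growth from above.
-/

set_option autoImplicit false

open _root_.SC

namespace Pool.Agent.H62.SCD

/-- restriction of the sum in TEL -/
lemma upl_two {K : Type} [Field K] (L : Type) [Field L] [Algebra K L] (a b : ℤ) (s t : Sys K) :
    upl L [(a, s), (b, t)] = [(a, s.up L), (b, t.up L)] := rfl

lemma Hs_add {k K : Type} [Field k] [Field K] [Algebra k K] (a b : ℤ) (s : Sys K) :
    Hs k [(a, s), (b, s)] = Hs k [(a + b, s)] := by
  apply Hs_congr
  intro v
  simp only [val_cons, val_nil]
  ring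

lemma Hs_zero {k K : Type} [Field k] [Field K] [Algebra k K] (a : ℤ) (s : Sys K) :
    Hs k [(-a, s), (a, s)] = Hs k ([] : List (ℤ × Sys K)) := by
  apply Hs_congr
  intro v
  simp only [val_cons, val_nil]
  ring

lemma idx_step (hG2r : T_G2r) {k K L : Type} [Field k] [Field K] [Algebra k K] [Field L]
    [Algebra K L] [Algebra k L] (W : Sys K) (hNz : W.Nz)
    (U : Var (fun _ : Unit => W) → L) (d : ℕ)
    (hIdx : ∀ (J : Type) [Finite J] (T : J → Sys K), (∀ j, (T j).Nz) →
      Idx (Sum.elim (fun _ : Unit => W) T) k = Idx (fun j => (T j).up L) (kU k U)) :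
    Idx (fun _ : Fin d => W.up L) (kU k U) = Idx (fun _ : Fin (d + 1) => W) k := by
  rw [← hIdx (Fin d) (fun _ => W) (fun _ => hNz)]
  symm
  apply idx_reindex hG2r (Sum.elim (fun _ : Unit => W) (fun _ : Fin d => W)) _ _ (eU d)
  · intro j
    rcases h : eU d j with x | x <;> rfl
  · rintro (x | x) <;> exact hNz

theorem d1 (hTEL : T_TEL) (hD4 : T_D4) (hSTP : T_STP) (hG1a : T_G1a) (hG2r : T_G2r)
    (hG2e : T_G2e) : T_D1 := by
  have key : ∀ (d : ℕ) (k K : Type) [Field k] [CharZero k] [Field K] [Algebra k K]
      [Algebra.EssFiniteType k K] (W : Sys K), Algebra.trdeg k K = d → W.Nz → Generates k W →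
      ∃ C : ℝ, ∀ m : ℕ, 1 ≤ m → (Module.finrank k (Hs k [((m : ℤ), W)]) : ℝ) ≤
        (Idx (fun _ : Fin d => W) k : ℝ) * m ^ d / d.factorial + C * m ^ (d - 1) := by
    intro d
    induction d with
    | zero =>
      intro k K _ _ _ _ _ W htr hNz hGen
      haveI : Module.Finite k K := finite_of_trdeg_zero (by simpa using htr)
      refine ⟨Module.finrank k K, ?_⟩
      intro m _
      have h1 : Module.finrank k (Hs k [((m : ℤ), W)]) ≤ Module.finrank k K :=
        Submodule.finrank_le _
      have h2 : (Module.finrank k (Hs k [((m : ℤ), W)]) : ℝ) ≤ Module.finrank k K := by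
        exact_mod_cast h1
      have h3 : (0 : ℝ) ≤ (Idx (fun _ : Fin 0 => W) k : ℝ) * (m : ℝ) ^ 0 / (Nat.factorial 0 : ℝ) := by
        positivity
      simp only [Nat.zero_sub, pow_zero, mul_one] at h3 ⊢
      linarith
    | succ d ih =>
      intro k K _ _ _ _ _ W htr hNz hGen
      have hIG : IsGen (fun _ : Unit => W) (genU (fun _ : Unit => W)) :=
        hG1a K Unit (fun _ => W) (fun _ => hNz)
      obtain ⟨hAI, hCZ, hEFT, htrL, hNzUp, hGenUp, hIdx⟩ :=
        hSTP k K (Gen (fun _ : Unit => W)) d W (genU (fun _ : Unit => W)) htr hNz hGen hIG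
      haveI := hCZ
      haveI := hEFT
      have hIdx' := idx_step hG2r W hNz (genU (fun _ : Unit => W)) d hIdx
      set L := Gen (fun _ : Unit => W) with hL
      set U := genU (fun _ : Unit => W) with hU
      have htel : ∀ m : ℕ, Module.finrank k (Hs k [((m : ℤ), W)]) ≤
          ∑ j ∈ Finset.range m, Module.finrank (kU k U)
            (Hs (kU k U) [(((m - j : ℕ) : ℤ), W.up L)]) +
          Module.finrank k (Hs k ([] : List (ℤ × Sys K))) := by
        intro m
        have h1 := hTEL k K L d W U htr hNz hGen hIG [((m : ℤ), W)]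
          (by
            intro p hp
            rw [List.mem_singleton] at hp
            rw [hp]; exact hNz) m
        rw [Hs_zero] at h1
        refine h1.trans (Nat.add_le_add_right (le_of_eq ?_) _)
        apply Finset.sum_congr rfl
        intro j hj
        rw [Finset.mem_range] at hj
        rw [upl_two, Hs_add]
        have : (-(j : ℤ) + (m : ℤ)) = ((m - j : ℕ) : ℤ) := by
          rw [Nat.cast_sub hj.le]; ring
        rw [this]
      set c0 : ℝ := ((Module.finrank k (Hs k ([] : List (ℤ × Sys K))) : ℕ) : ℝ) with hc0
      have hc0' : 0 ≤ c0 := by rw [hc0]; positivity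
      set I : ℝ := (Idx (fun _ : Fin (d + 1) => W) k : ℝ) with hI
      have hI0 : 0 ≤ I := by rw [hI]; positivity
      -- bound for the sections
      have hsec : ∃ C : ℝ, 0 ≤ C ∧ ∀ m : ℕ,
          ∑ j ∈ Finset.range m, (Module.finrank (kU k U)
            (Hs (kU k U) [(((m - j : ℕ) : ℤ), W.up L)]) : ℝ) ≤
          I * m ^ (d + 1) / (d + 1).factorial + C * m ^ d := by
        rcases Nat.eq_zero_or_pos d with hd | hd
        · subst hd
          haveI : Module.Finite (kU k U) L := finite_of_trdeg_zero (by simpa using htrL)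
          refine ⟨0, le_rfl, ?_⟩
          intro m
          have h2 : ∀ j, (Module.finrank (kU k U)
            (Hs (kU k U) [(((m - j : ℕ) : ℤ), W.up L)]) : ℝ) ≤ I := by
            intro j
            rw [hI, ← hIdx', hG2e]
            exact_mod_cast Submodule.finrank_le _
          calc ∑ j ∈ Finset.range m, (Module.finrank (kU k U)
                (Hs (kU k U) [(((m - j : ℕ) : ℤ), W.up L)]) : ℝ)
              ≤ ∑ j ∈ Finset.range m, I := Finset.sum_le_sum (fun j _ => h2 j)
            _ ≤ _ := by
              rw [Finset.sum_const, Finset.card_range, nsmul_eq_mul]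
              apply le_of_eq
              simp [mul_comm]
        · obtain ⟨C, hC⟩ := ih (kU k U) L (W.up L) htrL (hNzUp W hNz) (hGenUp W hGen)
          rw [hIdx'] at hC
          refine ⟨I / d.factorial + |C|, by positivity, ?_⟩
          intro m
          obtain ⟨e, rfl⟩ : ∃ e, d = e + 1 := ⟨d - 1, by omega⟩
          have h3 : ∀ j ∈ Finset.range m, (Module.finrank (kU k U)
              (Hs (kU k U) [(((m - j : ℕ) : ℤ), W.up L)]) : ℝ) ≤
              I / (e + 1).factorial * ((m - j : ℕ) : ℝ) ^ (e + 1) +
                |C| * ((m - j : ℕ) : ℝ) ^ e := by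
            intro j hj
            rw [Finset.mem_range] at hj
            refine (hC (m - j) (by omega)).trans ?_
            rw [Nat.add_sub_cancel]
            have h4 : C * ((m - j : ℕ) : ℝ) ^ e ≤ |C| * ((m - j : ℕ) : ℝ) ^ e :=
              mul_le_mul_of_nonneg_right (le_abs_self C) (by positivity)
            have h5 : I * ((m - j : ℕ) : ℝ) ^ (e + 1) / (e + 1).factorial =
              I / (e + 1).factorial * ((m - j : ℕ) : ℝ) ^ (e + 1) := by ring
            rw [h5]
            linarith
          have hrefl : ∀ f : ℕ → ℝ, ∑ j ∈ Finset.range m, f (m - j) =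
              ∑ i ∈ Finset.range m, f (i + 1) := by
            intro f
            rw [← Finset.sum_range_reflect]
            apply Finset.sum_congr rfl
            intro j hj
            rw [Finset.mem_range] at hj
            congr 1
            omega
          calc ∑ j ∈ Finset.range m, (Module.finrank (kU k U)
                (Hs (kU k U) [(((m - j : ℕ) : ℤ), W.up L)]) : ℝ)
              ≤ ∑ j ∈ Finset.range m, (I / (e + 1).factorial * ((m - j : ℕ) : ℝ) ^ (e + 1) +
                |C| * ((m - j : ℕ) : ℝ) ^ e) := Finset.sum_le_sum h3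
            _ = ∑ i ∈ Finset.range m, (I / (e + 1).factorial * ((i : ℝ) + 1) ^ (e + 1) +
                |C| * ((i : ℝ) + 1) ^ e) := by
              rw [hrefl (fun n => I / (e + 1).factorial * ((n : ℕ) : ℝ) ^ (e + 1) +
                |C| * ((n : ℕ) : ℝ) ^ e)]
              push_cast
              rfl
            _ = I / (e + 1).factorial * ∑ i ∈ Finset.range m, ((i : ℝ) + 1) ^ (e + 1) +
                |C| * ∑ i ∈ Finset.range m, ((i : ℝ) + 1) ^ e := by
              rw [Finset.sum_add_distrib, Finset.mul_sum, Finset.mul_sum]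
            _ ≤ I / (e + 1).factorial * ((m : ℝ) ^ (e + 1 + 1) / ((e + 1 : ℕ) + 1) +
                  (m : ℝ) ^ (e + 1)) + |C| * (m : ℝ) ^ (e + 1) := by
              apply add_le_add
              · apply mul_le_mul_of_nonneg_left (sum_pow_le (e + 1) m) (by positivity)
              · apply mul_le_mul_of_nonneg_left _ (abs_nonneg C)
                calc ∑ i ∈ Finset.range m, ((i : ℝ) + 1) ^ e
                    ≤ ∑ i ∈ Finset.range m, (m : ℝ) ^ e := by
                      apply Finset.sum_le_sum
                      intro i hi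
                      rw [Finset.mem_range] at hi
                      apply pow_le_pow_left₀ (by positivity)
                      have : i + 1 ≤ m := hi
                      exact_mod_cast this
                  _ = (m : ℝ) ^ (e + 1) := by
                      rw [Finset.sum_const, Finset.card_range, nsmul_eq_mul]
                      ring
            _ = I * m ^ (e + 1 + 1) / (e + 1 + 1).factorial +
                (I / (e + 1).factorial + |C|) * m ^ (e + 1) := by
              rw [Nat.factorial_succ (e + 1)]
              push_cast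
              field_simp
              ring
      obtain ⟨C, hC0, hC⟩ := hsec
      refine ⟨C + c0, ?_⟩
      intro m hm
      have h1 : (Module.finrank k (Hs k [((m : ℤ), W)]) : ℝ) ≤
          ∑ j ∈ Finset.range m, (Module.finrank (kU k U)
            (Hs (kU k U) [(((m - j : ℕ) : ℤ), W.up L)]) : ℝ) + c0 := by
        rw [hc0]
        exact_mod_cast htel m
      have h2 := hC m
      rw [Nat.add_sub_cancel]
      have h3 : c0 ≤ c0 * (m : ℝ) ^ d := by
        have : (1 : ℝ) ≤ (m : ℝ) ^ d := one_le_pow₀ (by exact_mod_cast hm)
        nlinarith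
      linarith [add_mul C c0 ((m : ℝ) ^ d)]
  intro k K _ _ _ _ _ d W
  exact key d k K W

end Pool.Agent.H62.SCD
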