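import Pool.Agent.H62.SCD.D1

/-!
D2: growth from below.
-/

set_option autoImplicit false

open _root_.SC

namespace Pool.Agent.H62.SCD

lemma pw_le_Hs {k K : Type} [Field k] [Field K] [Algebra k K] (s : Sys K) (m : ℕ) :
    pw k s m ≤ Hs k [((m : ℤ), s)] := by
  unfold pw
  induction m with
  | zero =>
    rw [pow_zero, Submodule.one_le]
    intro v
    right
    rw [val_cons, val_nil, v.ord_one]
    simp
  | succ m ih =>
    rw [pow_succ, Submodule.mul_le]
    intro x hx y hy
    have hy1 : y ∈ Hs k [((1 : ℤ), s)] := by
      have hsub : Submodule.span k (Set.range s.s) ≤ Hs k [((1 : ℤ), s)] := by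
        rw [Submodule.span_le]
        rintro z ⟨i, rfl⟩ v
        by_cases hi : s.s i = 0
        · exact Or.inl hi
        · right
          rw [val_cons, val_nil]
          have := mo_le v s i hi
          linarith
      exact hsub hy
    intro v
    rcases ih hx v with h1 | h1
    · left; rw [h1, zero_mul]
    · rcases hy1 v with h2 | h2
      · left; rw [h2, mul_zero]
      · by_cases hx0 : x = 0
        · left; rw [hx0, zero_mul]
        · by_cases hy0 : y = 0
          · left; rw [hy0, mul_zero]
          · right
            rw [v.ord_mul x y hx0 hy0]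
            rw [val_cons, val_nil] at h1 h2 ⊢
            push_cast
            linarith

theorem d2 (hPRD : T_PRD) (hPW0 : T_PW0) (hD4 : T_D4) (hSTP : T_STP) (hG1a : T_G1a)
    (hG2r : T_G2r) (hG2e : T_G2e) : T_D2 := by
  have key : ∀ (d : ℕ) (k K : Type) [Field k] [CharZero k] [Field K] [Algebra k K]
      [Algebra.EssFiniteType k K] (W : Sys K), Algebra.trdeg k K = d → W.Nz → Generates k W →
      ∃ C : ℝ, ∀ m : ℕ, 1 ≤ m → (Idx (fun _ : Fin d => W) k : ℝ) * m ^ d / d.factorial -
        C * m ^ (d - 1) ≤ (Module.finrank k (pw k W m) : ℝ) := by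
    intro d
    induction d with
    | zero =>
      intro k K _ _ _ _ _ W htr hNz hGen
      refine ⟨(Idx (fun _ : Fin 0 => W) k : ℝ), ?_⟩
      intro m _
      have h3 : (0 : ℝ) ≤ (Module.finrank k (pw k W m) : ℝ) := Nat.cast_nonneg _
      simp only [Nat.zero_sub, pow_zero, mul_one, Nat.factorial_zero, Nat.cast_one, div_one,
        sub_self]
      exact h3
    | succ d ih =>
      intro k K _ _ _ _ _ W htr hNz hGen
      have hIG : IsGen (fun _ : Unit => W) (genU (fun _ : Unit => W)) :=
        hG1a K Unit (fun _ => W) (fun _ => hNz)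
      obtain ⟨hAI, hCZ, hEFT, htrL, hNzUp, hGenUp, hIdx⟩ :=
        hSTP k K (Gen (fun _ : Unit => W)) d W (genU (fun _ : Unit => W)) htr hNz hGen hIG
      haveI := hCZ
      haveI := hEFT
      have hIdx' := idx_step hG2r W hNz (genU (fun _ : Unit => W)) d hIdx
      set L := Gen (fun _ : Unit => W) with hL
      set U := genU (fun _ : Unit => W) with hU
      set I : ℝ := ((Idx (fun _ : Fin (d + 1) => W) k : ℕ) : ℝ) with hI
      have hI0 : 0 ≤ I := by rw [hI]; positivity
      set fL : ℕ → ℝ := fun j => (Module.finrank (kU k U) (pw (kU k U) (W.up L) j) : ℝ) with hfL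
      have hprd : ∀ m : ℕ, ∑ i ∈ Finset.range m, fL (i + 1) ≤
          (Module.finrank k (pw k W m) : ℝ) := by
        intro m
        induction m with
        | zero =>
          simp only [Finset.range_zero, Finset.sum_empty]
          positivity
        | succ m ihm =>
          rw [Finset.sum_range_succ]
          have h1 : (Module.finrank k (pw k W m) : ℝ) + fL (m + 1) ≤
              (Module.finrank k (pw k W (m + 1)) : ℝ) := by
            simp only [hfL]
            exact_mod_cast hPRD k K L W U hNz hIG hAI m
          linarith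
      have hfL0 : ∀ j, 0 ≤ fL j := fun j => by rw [hfL]; positivity
      rcases Nat.eq_zero_or_pos d with hd | hd
      · subst hd
        haveI : Module.Finite (kU k U) L := finite_of_trdeg_zero (by simpa using htrL)
        obtain ⟨m₀, hm₀⟩ := hPW0 (kU k U) L (W.up L) (hNzUp W hNz) (hGenUp W hGen)
        have hIL : (Module.finrank (kU k U) L : ℝ) = I := by
          rw [hI, ← hIdx', hG2e]
        have htop : ∀ j, m₀ ≤ j → fL j = I := by
          intro j hj
          simp only [hfL]
          rw [hm₀ j hj, finrank_top, hIL]
        refine ⟨I * m₀, ?_⟩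
        intro m hm
        have h2 : I * (m : ℝ) - I * m₀ ≤ ∑ i ∈ Finset.range m, fL (i + 1) := by
          clear hm
          induction m with
          | zero =>
            simp only [Finset.range_zero, Finset.sum_empty, Nat.cast_zero, mul_zero, zero_sub]
            have : 0 ≤ I * (m₀ : ℝ) := by positivity
            linarith
          | succ m ihm =>
            rw [Finset.sum_range_succ]
            by_cases hmm : m₀ ≤ m + 1
            · rw [htop (m + 1) hmm]
              push_cast
              linarith [mul_add I (m : ℝ) 1]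
            · have h3 : ((m + 1 : ℕ) : ℝ) ≤ m₀ := by
                push Not at hmm
                exact_mod_cast hmm.le
              have h4 : 0 ≤ ∑ i ∈ Finset.range m, fL (i + 1) :=
                Finset.sum_nonneg (fun i _ => hfL0 _)
              have h5 : I * ((m + 1 : ℕ) : ℝ) ≤ I * m₀ := mul_le_mul_of_nonneg_left h3 hI0
              have := hfL0 (m + 1)
              linarith
        have h6 := hprd m
        simp only [zero_add, pow_one, Nat.factorial_one, Nat.cast_one, div_one, Nat.sub_self,
          pow_zero, mul_one]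
        linarith
      · obtain ⟨C, hC⟩ := ih (kU k U) L (W.up L) htrL (hNzUp W hNz) (hGenUp W hGen)
        rw [hIdx'] at hC
        obtain ⟨e, rfl⟩ : ∃ e, d = e + 1 := ⟨d - 1, by omega⟩
        refine ⟨|C|, ?_⟩
        intro m hm
        rw [Nat.add_sub_cancel]
        refine le_trans ?_ (hprd m)
        have h3 : ∀ i ∈ Finset.range m, I / (e + 1).factorial * ((i : ℝ) + 1) ^ (e + 1) -
            |C| * (m : ℝ) ^ e ≤ fL (i + 1) := by
          intro i hi
          rw [Finset.mem_range] at hi
          have h4 := hC (i + 1) (by omega)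
          rw [Nat.add_sub_cancel] at h4
          have h5 : C * ((i + 1 : ℕ) : ℝ) ^ e ≤ |C| * (m : ℝ) ^ e := by
            calc C * ((i + 1 : ℕ) : ℝ) ^ e ≤ |C| * ((i + 1 : ℕ) : ℝ) ^ e :=
                  mul_le_mul_of_nonneg_right (le_abs_self C) (by positivity)
              _ ≤ |C| * (m : ℝ) ^ e := by
                apply mul_le_mul_of_nonneg_left _ (abs_nonneg C)
                apply pow_le_pow_left₀ (by positivity)
                have : i + 1 ≤ m := hi
                exact_mod_cast this
          have h6 : I * ((i + 1 : ℕ) : ℝ) ^ (e + 1) / (e + 1).factorial =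
              I / (e + 1).factorial * ((i : ℝ) + 1) ^ (e + 1) := by
            push_cast
            ring
          have h7 : I * ((i + 1 : ℕ) : ℝ) ^ (e + 1) / (e + 1).factorial -
              C * ((i + 1 : ℕ) : ℝ) ^ e ≤ fL (i + 1) := h4
          rw [h6] at h7
          linarith
        calc I * (m : ℝ) ^ (e + 1 + 1) / (e + 1 + 1).factorial - |C| * (m : ℝ) ^ (e + 1)
            = I / (e + 1).factorial * ((m : ℝ) ^ (e + 1 + 1) / ((e + 1 : ℕ) + 1)) -
                (m : ℝ) * (|C| * (m : ℝ) ^ e) := by
              rw [Nat.factorial_succ (e + 1)]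
              push_cast
              field_simp
              ring
          _ ≤ I / (e + 1).factorial * ∑ i ∈ Finset.range m, ((i : ℝ) + 1) ^ (e + 1) -
                (m : ℝ) * (|C| * (m : ℝ) ^ e) := by
              apply sub_le_sub_right
              exact mul_le_mul_of_nonneg_left (le_sum_pow (e + 1) m) (by positivity)
          _ = ∑ i ∈ Finset.range m, (I / (e + 1).factorial * ((i : ℝ) + 1) ^ (e + 1) -
                |C| * (m : ℝ) ^ e) := by
              rw [Finset.sum_sub_distrib, ← Finset.mul_sum, Finset.sum_const, Finset.card_range,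
                nsmul_eq_mul]
          _ ≤ ∑ i ∈ Finset.range m, fL (i + 1) := Finset.sum_le_sum h3
  intro k K _ _ _ _ _ d W htr hNz hGen
  obtain ⟨C, hC⟩ := key d k K W htr hNz hGen
  refine ⟨C, ?_⟩
  intro m hm
  refine (hC m hm).trans ?_
  haveI : Module.Finite k (Hs k [((m : ℤ), W)]) := hD4 k K _ (by
    intro p hp
    rw [List.mem_singleton] at hp
    rw [hp]; exact hNz)
  exact_mod_cast Submodule.finrank_mono (pw_le_Hs W m)

end Pool.Agent.H62.SCD
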