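import Pool.Agent.H62.SCD.D2

/-!
HOD: the Hodge index inequality.
-/

set_option autoImplicit false

open _root_.SC

namespace Pool.Agent.H62.SCD

/-- two systems and an empty family -/
def eUUE : Fin 2 ≃ Unit ⊕ (Unit ⊕ Empty) where
  toFun j := if j = 0 then Sum.inl () else Sum.inr (Sum.inl ())
  invFun x := match x with
    | Sum.inl _ => 0
    | Sum.inr (Sum.inl _) => 1
    | Sum.inr (Sum.inr e) => e.elim
  left_inv := by intro j; fin_cases j <;> rfl
  right_inv := by
    rintro (x | x | x)
    · rfl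
    · rfl
    · exact x.elim

/-- two systems in the other order -/
def eUU : Fin 2 ≃ Unit ⊕ Unit where
  toFun j := if j = 0 then Sum.inr () else Sum.inl ()
  invFun x := match x with
    | Sum.inl _ => 1
    | Sum.inr _ => 0
  left_inv := by intro j; fin_cases j <;> rfl
  right_inv := by rintro (x | x) <;> rfl

lemma degs_two {K J : Type} [Field K] (k : Type) [Field k] [Algebra k K] (S : J → Sys K)
    (a b : ℤ) (s t : Sys K) : degs k S [(a, s), (b, t)] =
      a * (Idx (Sum.elim (fun _ : Unit => s) S) k : ℤ) +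
      b * (Idx (Sum.elim (fun _ : Unit => t) S) k : ℤ) := by
  unfold degs
  simp

/-- the arithmetic of the last step -/
lemma hod_arith (a b c h0 C : ℝ) (ha : 0 < a) (hb : 0 ≤ b) (hh : 0 ≤ h0)
    (h : ∀ y : ℕ, 1 ≤ y → ∃ n : ℕ, (n : ℝ) ≤ y * b / a + 1 ∧
      c * (y : ℝ) ^ 2 / 2 - C * y ≤ n * (h0 + y * b) - a * (n * (n - 1) / 2)) :
    a * c ≤ b ^ 2 := by
  by_contra hcon
  push Not at hcon
  set D : ℝ := C + (h0 + a / 2) * (b / a + 1) with hD
  have key : ∀ y : ℕ, 1 ≤ y → (c - b ^ 2 / a) / 2 * y ≤ D := by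
    intro y hy
    obtain ⟨n, hn1, hn2⟩ := h y hy
    have hy0 : (0 : ℝ) < y := by exact_mod_cast hy
    have hy1 : (1 : ℝ) ≤ y := by exact_mod_cast hy
    have h1 : (n : ℝ) * (y * b) - a * (n * (n - 1) / 2) ≤ (y * b) ^ 2 / (2 * a) + a * n / 2 := by
      have h2 : 0 ≤ (a * n - y * b) ^ 2 / (2 * a) := by positivity
      have h3 : (a * n - y * b) ^ 2 / (2 * a) = a * n ^ 2 / 2 - n * (y * b) + (y * b) ^ 2 / (2 * a) := by
        field_simp
        ring
      nlinarith
    have h4 : (n : ℝ) * h0 + a * n / 2 ≤ (h0 + a / 2) * (y * (b / a + 1)) := by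
      have h5 : (n : ℝ) ≤ y * (b / a + 1) := by
        have : y * b / a + 1 ≤ y * (b / a + 1) := by
          rw [mul_add, mul_one, ← mul_div_assoc]
          linarith
        linarith
      have h6 : (n : ℝ) * h0 + a * n / 2 = (h0 + a / 2) * n := by ring
      rw [h6]
      exact mul_le_mul_of_nonneg_left h5 (by positivity)
    have h7 : (c - b ^ 2 / a) / 2 * y * y ≤ D * y := by
      have e1 : (y * b) ^ 2 / (2 * a) = b ^ 2 / a / 2 * (y : ℝ) ^ 2 := by
        field_simp
      rw [hD]
      rw [e1] at h1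
      nlinarith
    exact le_of_mul_le_mul_right h7 hy0
  have hpos : 0 < c - b ^ 2 / a := by
    rw [sub_pos, div_lt_iff₀ ha]
    linarith
  obtain ⟨y, hy⟩ := exists_nat_gt (max 1 (D / ((c - b ^ 2 / a) / 2)))
  have hy1 : (1 : ℝ) < y := lt_of_le_of_lt (le_max_left _ _) hy
  have hy2 : D / ((c - b ^ 2 / a) / 2) < y := lt_of_le_of_lt (le_max_right _ _) hy
  rw [div_lt_iff₀ (by positivity)] at hy2
  have := key y (by exact_mod_cast hy1.le)
  linarith

theorem hod (hTEL : T_TEL) (hNEG : T_NEG) (hD0b : T_D0b) (hD2 : T_D2)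
    (hSTP : T_STP) (hG1a : T_G1a) (hG2r : T_G2r) (hPOS : T_POS) : T_HOD := by
  intro k K _ _ _ _ _ V W htr hV hW hVg hWg
  have htr2 : Algebra.trdeg k K = ((1 + 1 : ℕ) : Cardinal) := by
    rw [htr]; norm_num
  have hIG : IsGen (fun _ : Unit => V) (genU (fun _ : Unit => V)) :=
    hG1a K Unit (fun _ => V) (fun _ => hV)
  obtain ⟨hAI, hCZ, hEFT, htrL, hNzUp, hGenUp, hIdx⟩ :=
    hSTP k K (Gen (fun _ : Unit => V)) 1 V (genU (fun _ : Unit => V)) htr2 hV hVg hIG
  haveI := hCZ
  haveI := hEFT
  set L := Gen (fun _ : Unit => V) with hL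
  set U := genU (fun _ : Unit => V) with hU
  -- indices
  have hidxL : ∀ T : Sys K, T.Nz →
      Idx (Sum.elim (fun _ : Unit => T.up L) (fun i : Empty => i.elim)) (kU k U) =
        Idx ![V, T] k := by
    intro T hT
    have h1 := hIdx (Unit ⊕ Empty) (Sum.elim (fun _ : Unit => T) (fun i : Empty => i.elim))
      (by
        rintro (x | x)
        · exact hT
        · exact x.elim)
    have h2 : (fun j => ((Sum.elim (fun _ : Unit => T) (fun i : Empty => i.elim) :
        Unit ⊕ Empty → Sys K) j).up L) =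
        Sum.elim (fun _ : Unit => T.up L) (fun i : Empty => i.elim) := by
      funext j
      rcases j with x | x
      · rfl
      · exact x.elim
    rw [h2] at h1
    rw [← h1]
    symm
    apply idx_reindex hG2r (Sum.elim (fun _ : Unit => V)
      (Sum.elim (fun _ : Unit => T) (fun i : Empty => i.elim))) _ _ eUUE
    · intro j
      fin_cases j <;> rfl
    · rintro (x | x | x)
      · exact hV
      · exact hT
      · exact x.elim
  have hidxk : ∀ T : Sys K, T.Nz →
      Idx (Sum.elim (fun _ : Unit => T) (fun _ : Unit => V)) k = Idx ![V, T] k := by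
    intro T hT
    symm
    apply idx_reindex hG2r (Sum.elim (fun _ : Unit => T) (fun _ : Unit => V)) _ _ eUU
    · intro j
      fin_cases j <;> rfl
    · rintro (x | x)
      · exact hT
      · exact hV
  have hpos : Idx ![V, V] k ≠ 0 := by
    apply hPOS k K (Fin 2) ![V, V]
    · intro j; fin_cases j <;> exact hV
    · rw [htr, Fintype.card_fin]; norm_num
    · intro j; fin_cases j <;> exact hVg
  set a : ℕ := Idx ![V, V] k with ha
  set b : ℕ := Idx ![V, W] k with hb
  have hc : Idx (fun _ : Fin 2 => W) k = Idx ![W, W] k := by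
    congr 1
    funext j
    fin_cases j <;> rfl
  obtain ⟨C, hC⟩ := hD2 k K 2 W htr hW hWg
  rw [hc] at hC
  set c : ℕ := Idx ![W, W] k with hc'
  set h0 : ℕ := Module.finrank (kU k U) (Hs (kU k U) ([] : List (ℤ × Sys L))) with hh0
  have hfin : (a : ℝ) * c ≤ (b : ℝ) ^ 2 := by
    apply hod_arith a b c h0 C (by exact_mod_cast Nat.pos_of_ne_zero hpos) (Nat.cast_nonneg _)
      (Nat.cast_nonneg _)
    intro y hy
    have ha0 : 0 < a := Nat.pos_of_ne_zero hpos
    refine ⟨y * b / a + 1, ?_, ?_⟩
    · have h1 : ((y * b / a : ℕ) : ℝ) ≤ ((y * b : ℕ) : ℝ) / a := Nat.cast_div_le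
      push_cast at h1 ⊢
      linarith
    · set n : ℕ := y * b / a + 1 with hn
      have hn1 : y * b < n * a := by
        rw [hn]
        exact Nat.lt_mul_of_div_lt (by omega) ha0
      have hn2 : ∀ x, x < n → x * a ≤ y * b := by
        intro x hx
        have : x ≤ y * b / a := by omega
        calc x * a ≤ (y * b / a) * a := Nat.mul_le_mul_right _ this
          _ ≤ y * b := Nat.div_mul_le_self _ _
      have hNl : ∀ z : ℤ, Nzl [(z, V), ((y : ℤ), W)] := by
        intro z p hp
        simp only [List.mem_cons, List.not_mem_nil, or_false] at hp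
        rcases hp with hp | hp
        · rw [hp]; exact hV
        · rw [hp]; exact hW
      have hNl' : ∀ z : ℤ, Nzl [(z, V.up L), ((y : ℤ), W.up L)] := by
        intro z p hp
        simp only [List.mem_cons, List.not_mem_nil, or_false] at hp
        rcases hp with hp | hp
        · rw [hp]; exact hNzUp V hV
        · rw [hp]; exact hNzUp W hW
      have h5 := hTEL k K L 1 V U htr2 hV hVg hIG [((y : ℤ), W)]
        (by
          intro p hp
          rw [List.mem_singleton] at hp
          rw [hp]; exact hW) n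
      have hbot : Hs k [(-(n : ℤ), V), ((y : ℤ), W)] = ⊥ := by
        apply hNEG k K Unit (fun _ => V) (fun _ => hV) (by rw [htr2, Fintype.card_unit]) _
          (hNl _)
        rw [degs_two, hidxk V hV, hidxk W hW, ← ha, ← hb]
        have : ((y * b : ℕ) : ℤ) < ((n * a : ℕ) : ℤ) := by exact_mod_cast hn1
        push_cast at this
        linarith
      rw [hbot, finrank_bot, add_zero] at h5
      have h6 : ∀ x ∈ Finset.range n, (Module.finrank (kU k U)
          (Hs (kU k U) (upl L [(-(x : ℤ), V), ((y : ℤ), W)])) : ℝ) ≤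
          (h0 + y * b) - a * x := by
        intro x hx
        rw [Finset.mem_range] at hx
        rw [upl_two]
        have h7 := (hD0b (kU k U) L (by rw [htrL]; norm_num) _ (hNl' (-(x : ℤ)))).2
        rw [degs_two, hidxL V hV, hidxL W hW, ← ha, ← hb, ← hh0] at h7
        have h8 : ((x * a : ℕ) : ℤ) ≤ ((y * b : ℕ) : ℤ) := by exact_mod_cast hn2 x hx
        push_cast at h8
        rw [max_eq_right (by linarith)] at h7
        have h9 : ((Module.finrank (kU k U) (Hs (kU k U) [(-(x : ℤ), V.up L),
            ((y : ℤ), W.up L)]) : ℤ) : ℝ) ≤ (((h0 : ℤ) + (-(x : ℤ) * a + y * b) : ℤ) : ℝ) := by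
          exact_mod_cast h7
        push_cast at h9
        linarith
      have h10 := hC y hy
      have h13 : (Nat.factorial 2 : ℝ) = 2 := by norm_num [Nat.factorial]
      rw [h13] at h10
      have h11 : (Module.finrank k (Hs k [((y : ℤ), W)]) : ℝ) ≤
          ∑ x ∈ Finset.range n, ((h0 + y * b) - a * x : ℝ) := by
        calc (Module.finrank k (Hs k [((y : ℤ), W)]) : ℝ) ≤
            ∑ x ∈ Finset.range n, (Module.finrank (kU k U)
              (Hs (kU k U) (upl L [(-(x : ℤ), V), ((y : ℤ), W)])) : ℝ) := by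
              exact_mod_cast h5
          _ ≤ _ := Finset.sum_le_sum h6
      have h12 : ∀ N : ℕ, ∑ x ∈ Finset.range N, ((h0 + y * b) - a * x : ℝ) =
          N * (h0 + y * b) - a * (N * (N - 1) / 2) := by
        intro N
        induction N with
        | zero => simp
        | succ N ih =>
          rw [Finset.sum_range_succ, ih]
          push_cast
          ring
      rw [h12 n] at h11
      have h14 : (c : ℝ) * (y : ℝ) ^ 2 / 2 - C * y ≤
          (Module.finrank k (Hs k [((y : ℤ), W)]) : ℝ) := by simpa using h10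
      linarith
  exact_mod_cast hfin

end Pool.Agent.H62.SCD
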