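import Pool.Agent.H62.SCD.D2

/-!
SIU: Siu criterion on threefolds.
-/

set_option autoImplicit false

open _root_.SC

namespace Pool.Agent.H62.SCD

theorem siu (hTEL : T_TEL) (hHMU : T_HMU) (hD1 : T_D1) (hD2 : T_D2) (hD4 : T_D4)
    (hSTP : T_STP) (hG1a : T_G1a) (hG2r : T_G2r) : T_SIU := by
  intro k K _ _ _ _ _ G B htr hG hB hGg hBg hidx
  have htr3 : Algebra.trdeg k K = ((2 + 1 : ℕ) : Cardinal) := by
    rw [htr]; norm_num
  have hIG : IsGen (fun _ : Unit => B) (genU (fun _ : Unit => B)) :=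
    hG1a K Unit (fun _ => B) (fun _ => hB)
  obtain ⟨hAI, hCZ, hEFT, htrL, hNzUp, hGenUp, hIdx⟩ :=
    hSTP k K (Gen (fun _ : Unit => B)) 2 B (genU (fun _ : Unit => B)) htr3 hB hBg hIG
  haveI := hCZ
  haveI := hEFT
  set L := Gen (fun _ : Unit => B) with hL
  set U := genU (fun _ : Unit => B) with hU
  obtain ⟨C1, hC1⟩ := hD1 (kU k U) L 2 (G.up L) htrL (hNzUp G hG) (hGenUp G hGg)
  obtain ⟨C2, hC2⟩ := hD2 k K 3 G (by rw [htr]; norm_num) hG hGg
  have ht : Idx (fun _ : Fin 2 => G.up L) (kU k U) = Idx ![G, G, B] k := by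
    rw [← hIdx (Fin 2) (fun _ => G) (fun _ => hG)]
    symm
    apply idx_reindex hG2r (Sum.elim (fun _ : Unit => B) (fun _ : Fin 2 => G)) _ _
      (⟨fun j => if j = 2 then Sum.inl () else Sum.inr (if j = 0 then 0 else 1),
        fun x => match x with
          | Sum.inl _ => 2
          | Sum.inr i => if i = 0 then 0 else 1, by
            intro j; fin_cases j <;> rfl, by
            rintro (x | x)
            · rfl
            · fin_cases x <;> rfl⟩ : Fin 3 ≃ Unit ⊕ Fin 2)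
    · intro j
      fin_cases j <;> rfl
    · rintro (x | x)
      · exact hB
      · exact hG
  have h3 : Idx (fun _ : Fin 3 => G) k = Idx ![G, G, G] k := by
    congr 1
    funext j
    fin_cases j <;> rfl
  rw [ht] at hC1
  rw [h3] at hC2
  set t : ℝ := ((Idx ![G, G, B] k : ℕ) : ℝ) with ht'
  set I : ℝ := ((Idx ![G, G, G] k : ℕ) : ℝ) with hI'
  have hI1 : 3 * t + 1 ≤ I := by
    rw [ht', hI']
    exact_mod_cast hidx
  by_contra hcon
  push Not at hcon
  have hzero : ∀ m : ℕ, 1 ≤ m → Module.finrank k (Hs k [(-(m : ℤ), B), ((m : ℤ), G)]) = 0 := by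
    intro m hm
    have hbot : Hs k [(-(m : ℤ), B), ((m : ℤ), G)] = ⊥ := by
      rw [eq_bot_iff]
      intro g hg
      rw [Submodule.mem_bot]
      apply hcon m hm g
      have : Hs k [((m : ℤ), G), (-(m : ℤ), B)] = Hs k [(-(m : ℤ), B), ((m : ℤ), G)] := by
        apply Hs_congr
        intro v
        simp only [val_cons, val_nil]
        ring
      rw [this]
      exact hg
    rw [hbot, finrank_bot]
  have hmain : ∀ m : ℕ, 1 ≤ m → I * (m : ℝ) ^ 3 / 6 - C2 * (m : ℝ) ^ 2 ≤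
      (m : ℝ) * (t * (m : ℝ) ^ 2 / 2 + C1 * m) := by
    intro m hm
    have h4 := hC2 m hm
    have h5 := hTEL k K L 2 B U htr3 hB hBg hIG [((m : ℤ), G)]
      (by
        intro p hp
        rw [List.mem_singleton] at hp
        rw [hp]; exact hG) m
    rw [hzero m hm, add_zero] at h5
    have h6 : ∀ j ∈ Finset.range m, Module.finrank (kU k U)
        (Hs (kU k U) (upl L [(-(j : ℤ), B), ((m : ℤ), G)])) ≤
        Module.finrank (kU k U) (Hs (kU k U) [((m : ℤ), G.up L)]) := by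
      intro j _
      have hNl : ∀ a : ℤ, Nzl [(a, B.up L), ((m : ℤ), G.up L)] := by
        intro a p hp
        simp only [List.mem_cons, List.not_mem_nil, or_false] at hp
        rcases hp with hp | hp
        · rw [hp]; exact hNzUp B hB
        · rw [hp]; exact hNzUp G hG
      have h7 := (hHMU (kU k U) L [((m : ℤ), G.up L)] (B.up L) 0 j (hNzUp B hB) (Nat.zero_le j)
        (hD4 (kU k U) L _ (hNl _))).2
      have h8 : Hs (kU k U) ((-((0 : ℕ) : ℤ), B.up L) :: [((m : ℤ), G.up L)]) =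
          Hs (kU k U) [((m : ℤ), G.up L)] := by
        apply Hs_congr
        intro v
        simp only [val_cons, val_nil]
        simp
      rw [h8] at h7
      exact h7
    have h9 : (Module.finrank k (Hs k [((m : ℤ), G)]) : ℝ) ≤
        (m : ℝ) * (Module.finrank (kU k U) (Hs (kU k U) [((m : ℤ), G.up L)]) : ℝ) := by
      have h10 : Module.finrank k (Hs k [((m : ℤ), G)]) ≤
          m * Module.finrank (kU k U) (Hs (kU k U) [((m : ℤ), G.up L)]) := by
        refine h5.trans ((Finset.sum_le_sum h6).trans ?_)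
        rw [Finset.sum_const, Finset.card_range, smul_eq_mul]
      exact_mod_cast h10
    have h11 := hC1 m hm
    have h12 : (Nat.factorial 3 : ℝ) = 6 := by norm_num [Nat.factorial]
    have h13 : (Nat.factorial 2 : ℝ) = 2 := by norm_num [Nat.factorial]
    rw [h12] at h4
    rw [h13] at h11
    have h14 : (m : ℝ) * (Module.finrank (kU k U) (Hs (kU k U) [((m : ℤ), G.up L)]) : ℝ) ≤
        (m : ℝ) * (t * (m : ℝ) ^ 2 / 2 + C1 * m) := by
      apply mul_le_mul_of_nonneg_left _ (Nat.cast_nonneg m)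
      simpa using h11
    have h15 : I * (m : ℝ) ^ 3 / 6 - C2 * (m : ℝ) ^ 2 ≤
        (Module.finrank k (Hs k [((m : ℤ), G)]) : ℝ) := by simpa using h4
    linarith
  obtain ⟨m, hm⟩ := exists_nat_gt (6 * (|C1| + |C2|) + 1)
  have hm1 : 1 ≤ m := by
    have h1 : (1 : ℝ) < m := by
      have : 0 ≤ |C1| + |C2| := by positivity
      linarith
    exact_mod_cast h1.le
  have hm0 : (0 : ℝ) < m := by exact_mod_cast hm1
  have h := hmain m hm1
  have hx : (m : ℝ) ^ 2 > 0 := by positivity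
  have e1 : I * (m : ℝ) ^ 3 / 6 - (m : ℝ) * (t * (m : ℝ) ^ 2 / 2) =
      (m : ℝ) ^ 2 * ((I - 3 * t) * m / 6) := by ring
  have e2 : (m : ℝ) ^ 2 * ((I - 3 * t) * m / 6) ≤ (m : ℝ) ^ 2 * (|C1| + |C2|) := by
    have h1 : C1 * (m : ℝ) ^ 2 ≤ |C1| * (m : ℝ) ^ 2 :=
      mul_le_mul_of_nonneg_right (le_abs_self _) hx.le
    have h2 : C2 * (m : ℝ) ^ 2 ≤ |C2| * (m : ℝ) ^ 2 :=
      mul_le_mul_of_nonneg_right (le_abs_self _) hx.le
    nlinarith
  have e3 := le_of_mul_le_mul_left e2 hx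
  have e4 : (m : ℝ) ≤ (I - 3 * t) * m := by nlinarith
  linarith

end Pool.Agent.H62.SCD
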