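import Pool.Agent.H19.SCD.TargetsD

/-!
Common facts for D1, D2, SIU, HOD (MP_f2954d_ag).
-/

set_option autoImplicit false

open _root_.SC

namespace Pool.Agent.H62.SCD

section

variable {k K : Type} [Field k] [Field K] [Algebra k K]

lemma Hs_congr {φ ψ : List (ℤ × Sys K)} (h : ∀ v : DV k K, v.val φ = v.val ψ) :
    Hs k φ = Hs k ψ := by
  ext g
  constructor
  · intro hg v
    rw [← h v]
    exact hg v
  · intro hg v
    rw [h v]
    exact hg v

lemma val_cons (v : DV k K) (a : ℤ) (s : Sys K) (φ : List (ℤ × Sys K)) :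
    v.val ((a, s) :: φ) = a * v.mo s + v.val φ := by
  unfold DV.val
  simp

lemma val_nil (v : DV k K) : v.val ([] : List (ℤ × Sys K)) = 0 := by
  unfold DV.val
  simp

/-- minimal order -/
lemma mo_le (v : DV k K) (s : Sys K) (i : Fin s.r) (hi : s.s i ≠ 0) : v.mo s ≤ v.ord (s.s i) := by
  unfold DV.mo
  apply csInf_le
  · have hfin : {z | ∃ i, s.s i ≠ 0 ∧ v.ord (s.s i) = z}.Finite := by
      apply (Set.finite_range (fun i => v.ord (s.s i))).subset
      rintro z ⟨i, -, rfl⟩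
      exact ⟨i, rfl⟩
    exact hfin.bddBelow
  · exact ⟨i, hi, rfl⟩

/-- finite extensions -/
lemma finite_of_trdeg_zero [Algebra.EssFiniteType k K] (h : Algebra.trdeg k K = 0) :
    Module.Finite k K := by
  haveI : Algebra.IsAlgebraic k K := trdeg_eq_zero_iff.1 h
  exact Algebra.finite_of_essFiniteType_of_isAlgebraic

end

/-! ### sums of powers -/

lemma pow_succ_le (x : ℝ) (hx : 0 ≤ x) (n : ℕ) : x ^ (n + 1) + (n + 1) * x ^ n ≤ (x + 1) ^ (n + 1) := by
  induction n with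
  | zero => simp
  | succ n ih =>
    have h1 : 0 ≤ x ^ n := pow_nonneg hx n
    have h2 : (x + 1) ^ (n + 1 + 1) = (x + 1) * (x + 1) ^ (n + 1) := by ring
    rw [h2]
    have h3 : (x + 1) * (x ^ (n + 1) + (n + 1) * x ^ n) ≤ (x + 1) * (x + 1) ^ (n + 1) :=
      mul_le_mul_of_nonneg_left ih (by linarith)
    refine le_trans ?_ h3
    push_cast
    have h4 : (x + 1) * (x ^ (n + 1) + (n + 1) * x ^ n) =
      x ^ (n + 1 + 1) + ((n : ℝ) + 1 + 1) * x ^ (n + 1) + (n + 1) * x ^ n := by ring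
    rw [h4]
    have : 0 ≤ ((n : ℝ) + 1) * x ^ n := by positivity
    linarith

lemma pow_succ_ge (x : ℝ) (hx : 0 ≤ x) (n : ℕ) :
    (x + 1) ^ (n + 1) ≤ x ^ (n + 1) + (n + 1) * (x + 1) ^ n := by
  induction n with
  | zero => simp
  | succ n ih =>
    have h2 : (x + 1) ^ (n + 1 + 1) = x * (x + 1) ^ (n + 1) + (x + 1) ^ (n + 1) := by ring
    rw [h2]
    have h3 : x * (x + 1) ^ (n + 1) ≤ x * (x ^ (n + 1) + (n + 1) * (x + 1) ^ n) :=
      mul_le_mul_of_nonneg_left ih hx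
    have h4 : x * ((n + 1) * (x + 1) ^ n) ≤ (n + 1) * (x + 1) ^ (n + 1) := by
      have h5 : (0 : ℝ) ≤ (x + 1) ^ n := by positivity
      have h6 : (x + 1) ^ (n + 1) = (x + 1) * (x + 1) ^ n := by ring
      rw [h6]
      nlinarith [mul_nonneg (by positivity : (0 : ℝ) ≤ (n : ℝ) + 1) h5]
    push_cast
    have h7 : x * (x ^ (n + 1) + (n + 1) * (x + 1) ^ n) =
      x ^ (n + 1 + 1) + x * ((n + 1) * (x + 1) ^ n) := by ring
    linarith

lemma sum_pow_le (d m : ℕ) : ∑ i ∈ Finset.range m, ((i : ℝ) + 1) ^ d ≤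
    (m : ℝ) ^ (d + 1) / (d + 1) + (m : ℝ) ^ d := by
  induction m with
  | zero =>
    simp only [Finset.range_zero, Finset.sum_empty]
    positivity
  | succ m ih =>
    rw [Finset.sum_range_succ]
    push_cast
    have h1 := pow_succ_le (m : ℝ) (Nat.cast_nonneg m) d
    have h2 : (m : ℝ) ^ (d + 1) / (d + 1) + (m : ℝ) ^ d ≤ ((m : ℝ) + 1) ^ (d + 1) / (d + 1) := by
      rw [le_div_iff₀ (by positivity), add_mul, div_mul_cancel₀ _ (by positivity)]
      linarith
    linarith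

lemma le_sum_pow (d m : ℕ) : (m : ℝ) ^ (d + 1) / (d + 1) ≤
    ∑ i ∈ Finset.range m, ((i : ℝ) + 1) ^ d := by
  induction m with
  | zero => simp
  | succ m ih =>
    rw [Finset.sum_range_succ]
    push_cast
    have h1 := pow_succ_ge (m : ℝ) (Nat.cast_nonneg m) d
    have h2 : ((m : ℝ) + 1) ^ (d + 1) / (d + 1) ≤ (m : ℝ) ^ (d + 1) / (d + 1) + ((m : ℝ) + 1) ^ d := by
      rw [div_le_iff₀ (by positivity), add_mul, div_mul_cancel₀ _ (by positivity)]
      linarith
    linarith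

/-- reindexing -/
lemma idx_reindex (hG2r : T_G2r) {k K J J' : Type} [Field k] [Field K] [Algebra k K] [Finite J]
    [Finite J'] (S : J → Sys K) (S' : J' → Sys K) (hS : ∀ j, (S j).Nz) (e : J' ≃ J)
    (h : ∀ j, S' j = S (e j)) : Idx S' k = Idx S k := by
  rw [← hG2r k K J J' S e hS]
  congr 1
  funext j
  exact h j

/-- `Unit` together with `Fin d` -/
def eU (d : ℕ) : Fin (d + 1) ≃ Unit ⊕ Fin d :=
  (finSuccEquiv d).trans ((Equiv.optionEquivSumPUnit (Fin d)).trans (Equiv.sumComm _ _))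

end Pool.Agent.H62.SCD
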